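import Mathlib
import Pool.Agent.H.MP_935800_an.E

set_option autoImplicit false

namespace Pool.Agent.Results.MP_935800_an.Constant

open Pool.Agent.H.MP_935800_an Filter Topology

theorem result (d k : ℕ) (hd : 0 < d) (hk : 0 < k) :
    (∃ c : ℝ, ∀ D : Set (Fin d → ℝ), Adm D → Cone (interior D) →
      Tendsto (fun n : ℕ => err k n D * ENNReal.ofReal ((n : ℝ) ^ ((k : ℝ) / d))) atTop
        (𝓝 (ENNReal.ofReal c))) ∧
    ∃ D : Set (Fin d → ℝ), IsOpen D ∧ Adm D ∧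
      Tendsto (fun n : ℕ => err k n D * ENNReal.ofReal ((n : ℝ) ^ ((k : ℝ) / d))) atTop (𝓝 ⊤) :=
  ⟨⟨_, fun _ hD hC => regular hd k hD hC⟩, irregular hd hk⟩

end Pool.Agent.Results.MP_935800_an.Constant
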